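import Pool.Agent.Q331.Vant.Count

/-!
# Revealing as many bottleneck edges as the best `k` vantage points needs linearly many queries

The network is the incidence graph of points and lines of the affine plane over `ZMod p`, with
`n = 2 p ^ 2` vertices, all of degree `p`, and `k = p`.  The adversary gives the unseen edges at the
`j`-th queried vertex the capacity `(j + 1) / (j + 2)`, so a query reveals only edges at queried
vertices, at most `p` per query.  The `p` lines of a suitable direction reveal all but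
`(p - 1) |S|` of the `p ^ 3` edges, where `S` is the set of all queried vertices.
-/

open SimpleGraph Pool.Agent.Q331.Vant

namespace Pool.Agent.Results.MP_617207_lc.LinearLowerBound

theorem card_pl (p : ℕ) [Fact p.Prime] : Fintype.card (Pl (ZMod p)) = 2 * p ^ 2 := by
  rw [Fintype.card_sum, Fintype.card_prod, ZMod.card]
  ring

theorem main (p : ℕ) [Fact p.Prime] : ∃ N : Network (Pl (ZMod p)), ∀ A : Algo (Pl (ZMod p)),
    (∀ c : Sym2 (Pl (ZMod p)) → ℝ, (∀ e, 0 < c e) →
      ∃ S, EndsWith N A c S ∧ OPT N c p ≤ (revealed N c S).ncard) →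
    ∃ c : Sym2 (Pl (ZMod p)) → ℝ, (∀ e, 0 < c e) ∧
      ∀ S, EndsWith N A c S → 2 * p ^ 2 < 4 * S.card := by
  obtain ⟨n, ix, hinj, hix⟩ := exists_index (Pl (ZMod p))
  refine ⟨net (ZMod p) n ix hinj hix, fun A hA => ?_⟩
  obtain ⟨J, hJ⟩ := adv_stops (net (ZMod p) n ix hinj hix) A (fun c hc => by
    obtain ⟨S, hS, -⟩ := hA c hc
    exact ⟨S, hS⟩)
  set q := (adv (net (ZMod p) n ix hinj hix) A J).map Prod.fst with hq
  obtain ⟨m, hm⟩ := exists_good q.toFinset
  have hpos : ∀ e, 0 < cap q (gval m) e := cap_pos q fun e => by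
    have := gval_ge m e
    linarith
  refine ⟨cap q (gval m), hpos, ?_⟩
  have key : 2 * p ^ 2 < 4 * q.toFinset.card := by
    obtain ⟨S, hS1, hS2⟩ := hA (cap q (gval m)) hpos
    have h1 : S = q.toFinset := by
      exact (endsWith_iff (net (ZMod p) n ix hinj hix) A hJ (gval_ge m) S).1 hS1
    subst h1
    have h2 := opt_ge hinj hix q hm
    have h3 := revealed_le hinj hix q m
    rw [ZMod.card] at h2 h3
    have hp : 2 ≤ p := (Fact.out : p.Prime).two_le
    have h4 : p ^ 3 ≤ q.toFinset.card * p + (p - 1) * q.toFinset.card := by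
      calc p ^ 3 ≤ _ := h2
        _ ≤ _ := by
          have := hS2.trans h3
          omega
    have h5 : 0 < q.toFinset.card := by
      by_contra h0
      have h0' : q.toFinset.card = 0 := by omega
      rw [h0'] at h4
      have : 0 < p ^ 3 := by positivity
      omega
    have h6 : (p - 1) * q.toFinset.card + q.toFinset.card = p * q.toFinset.card := by
      rw [Nat.sub_mul, one_mul]
      exact Nat.sub_add_cancel (Nat.le_mul_of_pos_left _ (by omega))
    have h7 : p * p ^ 2 < p * (2 * q.toFinset.card) := by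
      have : p * p ^ 2 = p ^ 3 := by ring
      rw [this]
      nlinarith
    have h8 := Nat.lt_of_mul_lt_mul_left h7
    omega
  intro S hS
  have h1 : S = q.toFinset := by
    exact (endsWith_iff (net (ZMod p) n ix hinj hix) A hJ (gval_ge m) S).1 hS
  rw [h1]
  exact key

/-- **Linearly many vantage points are needed at `β = 1`.**  (1) For every prime `p` there is a
network with `n = 2 p ^ 2` vertices such that every deterministic adaptive algorithm that for all
capacities stops and reveals at least `OPT(G, c, p)` capacities uses, for some capacities `c`, more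
than `n / 4` vantage points.  (2) Hence there is no function `α` with `α(n, k) k / n → 0` as
`n / k → ∞` such that for every network and every `k` some deterministic adaptive algorithm reveals
at least `OPT(G, c, k)` capacities with at most `α(n, k) k` vantage points, for all `c`. -/
theorem result :
    (∀ p : ℕ, p.Prime → ∃ (V : Type) (_ : Fintype V) (_ : DecidableEq V) (N : Network V),
      Fintype.card V = 2 * p ^ 2 ∧ ∀ A : Algo V,
        (∀ c : Sym2 V → ℝ, (∀ e, 0 < c e) →
          ∃ S, EndsWith N A c S ∧ OPT N c p ≤ (revealed N c S).ncard) →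
        ∃ c : Sym2 V → ℝ, (∀ e, 0 < c e) ∧
          ∀ S, EndsWith N A c S → Fintype.card V < 4 * S.card) ∧
    ¬ ∃ α : ℕ → ℕ → ℝ,
      (∀ ε > 0, ∃ M : ℝ, ∀ n k : ℕ, 1 ≤ k → M ≤ (n : ℝ) / k → |α n k * k / n| ≤ ε) ∧
      ∀ (V : Type) [Fintype V] [DecidableEq V] (N : Network V) (k : ℕ),
        1 ≤ k → k ≤ Fintype.card V → ∃ A : Algo V, ∀ c : Sym2 V → ℝ, (∀ e, 0 < c e) →
          ∃ S, EndsWith N A c S ∧ (S.card : ℝ) ≤ α (Fintype.card V) k * k ∧
            OPT N c k ≤ (revealed N c S).ncard := by
  have h1 : ∀ p : ℕ, p.Prime → ∃ (V : Type) (_ : Fintype V) (_ : DecidableEq V) (N : Network V),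
      Fintype.card V = 2 * p ^ 2 ∧ ∀ A : Algo V,
        (∀ c : Sym2 V → ℝ, (∀ e, 0 < c e) →
          ∃ S, EndsWith N A c S ∧ OPT N c p ≤ (revealed N c S).ncard) →
        ∃ c : Sym2 V → ℝ, (∀ e, 0 < c e) ∧
          ∀ S, EndsWith N A c S → Fintype.card V < 4 * S.card := by
    intro p hp
    have : Fact p.Prime := ⟨hp⟩
    obtain ⟨N, hN⟩ := main p
    refine ⟨Pl (ZMod p), inferInstance, inferInstance, N, card_pl p, fun A hA => ?_⟩
    obtain ⟨c, hc, h⟩ := hN A hA
    exact ⟨c, hc, fun S hS => by rw [card_pl]; exact h S hS⟩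
  refine ⟨h1, ?_⟩
  rintro ⟨α, hα, hall⟩
  obtain ⟨M, hM⟩ := hα (1 / 8) (by norm_num)
  obtain ⟨p, hpM, hp⟩ := Nat.exists_infinite_primes ⌈M⌉₊
  obtain ⟨V, i1, i2, N, hV, hN⟩ := h1 p hp
  have hp0 : (0 : ℝ) < p := by exact_mod_cast hp.pos
  have hp1 : 1 ≤ p := hp.one_lt.le
  obtain ⟨A, hA⟩ := hall V N p hp1 (by rw [hV]; nlinarith)
  obtain ⟨c, hc, h⟩ := hN A (fun c hc => by
    obtain ⟨S, h1, -, h2⟩ := hA c hc
    exact ⟨S, h1, h2⟩)
  obtain ⟨S, h2, h3, -⟩ := hA c hc
  have h4 := h S h2
  have h4' : (Fintype.card V : ℝ) < 4 * S.card := by exact_mod_cast h4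
  have hn : (0 : ℝ) < Fintype.card V := by
    rw [hV]; push_cast; positivity
  have h5 := hM (Fintype.card V) p hp1 (by
    rw [hV, le_div_iff₀ hp0]
    push_cast
    have : M ≤ p := (Nat.le_ceil M).trans (by exact_mod_cast hpM)
    nlinarith)
  have h6 := (le_abs_self _).trans h5
  rw [div_le_iff₀ hn] at h6
  linarith

end Pool.Agent.Results.MP_617207_lc.LinearLowerBound
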